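import Pool.Agent.X32.Cls.Fld

set_option autoImplicit false

/-! # Elements of exact odd order in the class groups of `ℚ(√(x ^ 2 - 4 M ^ m))` for fixed `x` and all large `M` -/

namespace Pool.Agent.X220.IZ

open NumberField

/-- the polynomials `(γ ^ (2 k + 1) + δ ^ (2 k + 1)) / (γ + δ)` up to the sign -/
def R (t N : ℤ) : ℕ → ℤ
  | 0 => 1
  | 1 => 3 * N - t ^ 2
  | (k + 2) => (2 * N - t ^ 2) * R t N (k + 1) - N ^ 2 * R t N k

lemma R_id {A : Type} [CommRing A] (γ δ : A) (t N : ℤ) (h1 : γ + δ = (t : A)) (h2 : γ * δ = (N : A)) (k : ℕ) :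
    γ ^ (2 * k + 1) + δ ^ (2 * k + 1) = (-1) ^ k * (t : A) * (R t N k : A) ∧
    γ ^ (2 * (k + 1) + 1) + δ ^ (2 * (k + 1) + 1) = (-1) ^ (k + 1) * (t : A) * (R t N (k + 1) : A) := by
  induction k with
  | zero =>
    refine ⟨?_, ?_⟩
    · simp only [R, Int.cast_one, mul_one, pow_zero, one_mul, mul_zero, zero_add, pow_one]
      exact h1
    · simp only [R]
      push_cast
      rw [← h1, ← h2]
      ring
  | succ k ih =>
    obtain ⟨i1, i2⟩ := ih
    refine ⟨i2, ?_⟩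
    have e : γ ^ (2 * (k + 1 + 1) + 1) + δ ^ (2 * (k + 1 + 1) + 1) =
        ((γ + δ) ^ 2 - 2 * (γ * δ)) * (γ ^ (2 * (k + 1) + 1) + δ ^ (2 * (k + 1) + 1)) -
        (γ * δ) ^ 2 * (γ ^ (2 * k + 1) + δ ^ (2 * k + 1)) := by ring
    rw [e, i1, i2, h1, h2]
    simp only [R]
    push_cast
    ring

lemma R_bd (t N : ℤ) (hN : 1 ≤ N) (k : ℕ) (hk : t ^ 2 * (k : ℤ) ^ 2 ≤ 2 * N) :
    N ^ k ≤ R t N k ∧ R t N k ≤ (2 * k + 1) * N ^ k ∧
      N ^ k * (2 * N - t ^ 2 * ((k : ℤ) + 1) ^ 2) ≤ R t N (k + 1) - N * R t N k ∧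
      R t N (k + 1) - N * R t N k ≤ 2 * N ^ (k + 1) := by
  induction k with
  | zero =>
    simp only [R]
    refine ⟨by norm_num, by norm_num, ?_, ?_⟩
    · push_cast
      ring_nf
      exact le_refl _
    · have := sq_nonneg t
      ring_nf
      nlinarith
  | succ k ih =>
    have hk0 : (0 : ℤ) ≤ k := Int.natCast_nonneg k
    have ht2 : 0 ≤ t ^ 2 := sq_nonneg t
    have h0 : t ^ 2 * (k : ℤ) ^ 2 ≤ 2 * N := by
      refine le_trans ?_ hk
      push_cast
      exact mul_le_mul_of_nonneg_left (by nlinarith) ht2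
    obtain ⟨i1, i2, i3, i4⟩ := ih h0
    have hNk : 0 < N ^ k := by positivity
    have hNk1 : 0 < N ^ (k + 1) := by positivity
    have hE : 0 ≤ R t N (k + 1) - N * R t N k := by
      refine le_trans ?_ i3
      push_cast at hk
      exact mul_nonneg hNk.le (by linarith)
    have a1 : N ^ (k + 1) ≤ R t N (k + 1) := by
      have h2 : N * N ^ k ≤ N * R t N k := mul_le_mul_of_nonneg_left i1 (by linarith)
      rw [pow_succ, mul_comm]
      linarith
    have a2 : R t N (k + 1) ≤ (2 * ((k + 1 : ℕ) : ℤ) + 1) * N ^ (k + 1) := by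
      have h2 : N * R t N k ≤ N * ((2 * k + 1) * N ^ k) := mul_le_mul_of_nonneg_left i2 (by linarith)
      have h3 : N * ((2 * (k : ℤ) + 1) * N ^ k) = (2 * k + 1) * N ^ (k + 1) := by ring
      push_cast
      nlinarith
    have e : R t N (k + 1 + 1) - N * R t N (k + 1) =
        N * (R t N (k + 1) - N * R t N k) - t ^ 2 * R t N (k + 1) := by
      have : R t N (k + 1 + 1) = (2 * N - t ^ 2) * R t N (k + 1) - N ^ 2 * R t N k := by simp only [R]
      rw [this]
      ring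
    refine ⟨a1, a2, ?_, ?_⟩
    · rw [e]
      have h2 : N * (N ^ k * (2 * N - t ^ 2 * ((k : ℤ) + 1) ^ 2)) ≤ N * (R t N (k + 1) - N * R t N k) :=
        mul_le_mul_of_nonneg_left i3 (by linarith)
      have h3 : t ^ 2 * R t N (k + 1) ≤ t ^ 2 * ((2 * ((k + 1 : ℕ) : ℤ) + 1) * N ^ (k + 1)) :=
        mul_le_mul_of_nonneg_left a2 ht2
      have h4 : N ^ (k + 1) * (2 * N - t ^ 2 * (((k + 1 : ℕ) : ℤ) + 1) ^ 2) =
          N * (N ^ k * (2 * N - t ^ 2 * ((k : ℤ) + 1) ^ 2)) -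
            t ^ 2 * ((2 * ((k + 1 : ℕ) : ℤ) + 1) * N ^ (k + 1)) := by
        push_cast
        ring
      rw [h4]
      linarith
    · rw [e]
      have h2 : N * (R t N (k + 1) - N * R t N k) ≤ N * (2 * N ^ (k + 1)) :=
        mul_le_mul_of_nonneg_left i4 (by linarith)
      have h3 : 0 ≤ t ^ 2 * R t N (k + 1) := mul_nonneg ht2 (by linarith)
      have h4 : N * (2 * N ^ (k + 1)) = 2 * N ^ (k + 1 + 1) := by ring
      linarith

variable {K : Type} [Field K] [NumberField K]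

/-- the units -/
lemma unit_pow (h2 : Module.finrank ℚ K = 2) (hd : discr K < 0) (hd3 : discr K ≠ -3) (ε : (𝓞 K)ˣ) :
    (ε : 𝓞 K) ^ 4 = 1 := by
  obtain ⟨h3, m, h4⟩ := Pool.Agent.Y797.FK.quad_eq' h2 (ε : 𝓞 K)
  obtain ⟨t, ht⟩ : ∃ t, t = Algebra.trace ℤ (𝓞 K) (ε : 𝓞 K) := ⟨_, rfl⟩
  obtain ⟨N, hN⟩ : ∃ N, N = Algebra.norm ℤ (ε : 𝓞 K) := ⟨_, rfl⟩
  rw [← ht, ← hN] at h3 h4
  have hu : N = 1 ∨ N = -1 := by
    rw [← Int.isUnit_iff, hN]
    exact (Units.isUnit ε).map (Algebra.norm ℤ)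
  have hm2 : 0 ≤ m ^ 2 := sq_nonneg m
  have hN1 : N = 1 := by
    rcases hu with h | h
    · exact h
    · exfalso
      rw [h] at h4
      nlinarith [sq_nonneg t]
  rw [hN1] at h3 h4
  have h2ne : (2 : 𝓞 K) ≠ 0 := two_ne_zero
  have h4ne : (4 : 𝓞 K) ≠ 0 := by
    have h : (4 : 𝓞 K) = 2 * 2 := by norm_num
    rw [h]
    exact mul_ne_zero two_ne_zero two_ne_zero
  by_cases hm0 : m = 0
  · rw [hm0] at h4
    have h5 : t ^ 2 - 4 * 1 = 0 := by rw [h4]; ring
    rw [h5, Int.cast_zero] at h3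
    have h6 : 2 * (ε : 𝓞 K) - (t : 𝓞 K) = 0 := pow_eq_zero_iff (two_ne_zero) |>.mp h3
    have h7 : t = 2 ∨ t = -2 := by
      have : (t - 2) * (t + 2) = 0 := by linarith
      rcases mul_eq_zero.1 this with h | h
      · left; linarith
      · right; linarith
    have h8 : (ε : 𝓞 K) = 1 ∨ (ε : 𝓞 K) = -1 := by
      rcases h7 with h | h
      · left
        rw [h] at h6
        apply mul_left_cancel₀ h2ne
        push_cast at h6
        linear_combination h6
      · right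
        rw [h] at h6
        apply mul_left_cancel₀ h2ne
        push_cast at h6
        linear_combination h6
    rcases h8 with h | h <;> rw [h] <;> ring
  · have hm1 : 1 ≤ m ^ 2 := by
      have := Int.one_le_abs hm0
      nlinarith [abs_nonneg m, sq_abs m]
    have h5 : t ^ 2 < 4 := by nlinarith
    have h6 : t = 0 ∨ t = 1 ∨ t = -1 := by
      have : -2 < t := by nlinarith
      have : t < 2 := by nlinarith
      omega
    rcases h6 with h | h | h
    · rw [h] at h3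
      have h7 : (ε : 𝓞 K) ^ 2 = -1 := by
        apply mul_left_cancel₀ h4ne
        push_cast at h3
        linear_combination h3
      calc (ε : 𝓞 K) ^ 4 = ((ε : 𝓞 K) ^ 2) ^ 2 := by ring
        _ = 1 := by rw [h7]; ring
    all_goals
      exfalso
      rw [h] at h4
      have h7 : m ^ 2 * discr K = -3 := by linarith
      have h8 : m ^ 2 ∣ 3 := ⟨-discr K, by linarith⟩
      have h9 : m ^ 2 ≤ 3 := Int.le_of_dvd (by norm_num) h8
      have h10 : m ^ 2 = 1 := by
        have : -2 < m := by nlinarith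
        have : m < 2 := by nlinarith
        have : m = 1 ∨ m = -1 := by omega
        rcases this with rfl | rfl <;> norm_num
      rw [h10, one_mul] at h7
      exact hd3 h7

/-- the integer `(x + y) / 2` with `y ^ 2 = x ^ 2 - 4 N < 0` -/
lemma exists_ab (h2 : Module.finrank ℚ K = 2) {x N : ℤ} (hneg : x ^ 2 - 4 * N < 0) {y : K}
    (hy : y ^ 2 = ((x ^ 2 - 4 * N : ℤ) : K)) : ∃ α β : 𝓞 K, α + β = (x : 𝓞 K) ∧ α * β = (N : 𝓞 K) ∧
      Algebra.norm ℤ α = N ∧ ∃ f : ℤ, x ^ 2 - 4 * N = f ^ 2 * discr K := by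
  have key : IsIntegral ℤ (((x : K) + y) / 2) := by
    refine ⟨Polynomial.X ^ 2 - Polynomial.C x * Polynomial.X + Polynomial.C N, ?_, ?_⟩
    · monicity!
    · rw [← Polynomial.aeval_def]
      simp only [map_add, map_sub, map_mul, map_pow, Polynomial.aeval_X, Polynomial.aeval_C]
      simp only [algebraMap_int_eq, eq_intCast]
      push_cast at hy
      field_simp
      linear_combination hy
  obtain ⟨α, hα⟩ : ∃ α : 𝓞 K, (α : K) = ((x : K) + y) / 2 := ⟨⟨_, key⟩, rfl⟩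
  have hquad : α * ((x : 𝓞 K) - α) = (N : 𝓞 K) := by
    apply RingOfIntegers.ext
    change algebraMap (𝓞 K) K (α * ((x : 𝓞 K) - α)) = algebraMap (𝓞 K) K ((N : ℤ) : 𝓞 K)
    rw [map_mul, map_sub, map_intCast, map_intCast]
    change (α : K) * ((x : K) - (α : K)) = _
    rw [hα]
    push_cast at hy
    field_simp
    linear_combination (-1 : K) * hy
  obtain ⟨h3, f, h4⟩ := Pool.Agent.Y797.FK.quad_eq' h2 α
  obtain ⟨t, ht⟩ : ∃ t, t = Algebra.trace ℤ (𝓞 K) α := ⟨_, rfl⟩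
  obtain ⟨n, hn⟩ : ∃ n, n = Algebra.norm ℤ α := ⟨_, rfl⟩
  rw [← ht, ← hn] at h3 h4
  have h4ne : (4 : 𝓞 K) ≠ 0 := by
    have h : (4 : 𝓞 K) = 2 * 2 := by norm_num
    rw [h]
    exact mul_ne_zero two_ne_zero two_ne_zero
  have hquad2 : α * ((t : 𝓞 K) - α) = (n : 𝓞 K) := by
    apply mul_left_cancel₀ h4ne
    push_cast at h3
    linear_combination (-1 : 𝓞 K) * h3
  have hlin : ((x - t : ℤ) : 𝓞 K) * α = ((N - n : ℤ) : 𝓞 K) := by
    push_cast
    linear_combination hquad - hquad2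
  have hxt : x = t := by
    by_contra hne
    have hne' : ((x - t : ℤ) : K) ≠ 0 := by exact_mod_cast sub_ne_zero.2 hne
    have h5 : ((x - t : ℤ) : K) * (((x : K) + y) / 2) = ((N - n : ℤ) : K) := by
      have := congrArg (fun z : 𝓞 K => (algebraMap (𝓞 K) K z)) hlin
      simp only [map_mul, map_intCast] at this
      rw [← hα]
      exact this
    have h6 : y = (((2 * (N - n) / (x - t) - x : ℚ)) : K) := by
      push_cast
      push_cast at h5 hne'
      field_simp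
      linear_combination 2 * h5
    rw [h6] at hy
    have h7 : ((2 * (N - n) / (x - t) - x : ℚ)) ^ 2 = ((x ^ 2 - 4 * N : ℤ) : ℚ) := by
      have : ((((2 * (N - n) / (x - t) - x : ℚ)) ^ 2 : ℚ) : K) = ((((x ^ 2 - 4 * N : ℤ) : ℚ)) : K) := by
        push_cast at hy ⊢
        exact hy
      exact_mod_cast this
    have h8 : ((x ^ 2 - 4 * N : ℤ) : ℚ) < 0 := by exact_mod_cast hneg
    nlinarith [sq_nonneg ((2 * (N - n) / (x - t) - x : ℚ))]
  have hNn : n = N := by
    rw [hxt, sub_self, Int.cast_zero, zero_mul] at hlin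
    have : N - n = 0 := by exact_mod_cast hlin.symm
    linarith
  refine ⟨α, (x : 𝓞 K) - α, by ring, hquad, by rw [← hn, hNn], f, ?_⟩
  rw [← hNn, hxt]
  exact h4

end Pool.Agent.X220.IZ
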