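import Pool.Agent.X220.IZ.Base

set_option autoImplicit false

/-! # The order of the class -/

namespace Pool.Agent.X220.IZ

open NumberField Pool.Agent.TH847.LS Pool.Agent.X32.Cls

variable {K : Type} [Field K] [NumberField K]

/-- the key step: `α` is not a `q`-th power up to a unit -/
lemma no_root (h2 : Module.finrank ℚ K = 2) (hd : discr K < 0) (hd3 : discr K ≠ -3) {x M : ℕ} {m q c : ℕ}
    (hx : 1 ≤ x) (hc : 1 ≤ c) (hq : Odd q) (hq3 : 3 ≤ q) (hqm : q ≤ m) (hM : x ^ 2 * m ^ 2 < M) {α β : 𝓞 K}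
    (hs : α + β = (x : 𝓞 K)) (hp : α * β = ((M : ℤ) ^ (c * q) : ℤ)) (hn : Algebra.norm ℤ α = (M : ℤ) ^ (c * q))
    (γ : 𝓞 K) (ε : (𝓞 K)ˣ) (hγ : γ ^ q * (ε : 𝓞 K) = α) : False := by
  obtain ⟨k, hk⟩ := hq
  have hk1 : 1 ≤ k := by omega
  -- absorb the unit
  obtain ⟨g, hg⟩ : ∃ g : 𝓞 K, g = γ * (ε : 𝓞 K) ^ q := ⟨_, rfl⟩
  have hgq : g ^ q = α := by
    have h4 := unit_pow h2 hd hd3 ε
    obtain ⟨w, hw⟩ : ∃ w, w = k * (k + 1) := ⟨_, rfl⟩
    have e1 : q * q = 4 * w + 1 := by rw [hk, hw]; ring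
    rw [hg, mul_pow, ← pow_mul, e1, pow_succ, pow_mul, h4, one_pow, one_mul, hγ]
  -- the norm of `g`
  have hM0 : 0 < M := by omega
  have hng : Algebra.norm ℤ g = (M : ℤ) ^ c := by
    have h5 : (Algebra.norm ℤ g) ^ q = ((M : ℤ) ^ c) ^ q := by
      rw [← map_pow, hgq, hn, pow_mul]
    have hqodd : Odd q := ⟨k, hk⟩
    exact (Odd.strictMono_pow (R := ℤ) hqodd).injective h5
  obtain ⟨h3, f, h4⟩ := Pool.Agent.Y797.FK.quad_eq' h2 g
  obtain ⟨t, ht⟩ : ∃ t, t = Algebra.trace ℤ (𝓞 K) g := ⟨_, rfl⟩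
  rw [← ht, hng] at h3 h4
  obtain ⟨N, hN⟩ : ∃ N : ℤ, N = (M : ℤ) ^ c := ⟨_, rfl⟩
  rw [← hN] at h3 h4 hng
  have h4ne : (4 : 𝓞 K) ≠ 0 := by
    have h : (4 : 𝓞 K) = 2 * 2 := by norm_num
    rw [h]
    exact mul_ne_zero two_ne_zero two_ne_zero
  obtain ⟨δ, hδ⟩ : ∃ δ : 𝓞 K, δ = (t : 𝓞 K) - g := ⟨_, rfl⟩
  have h6 : g + δ = (t : 𝓞 K) := by rw [hδ]; ring
  have h7 : g * δ = (N : 𝓞 K) := by
    rw [hδ]
    apply mul_left_cancel₀ h4ne
    push_cast at h3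
    linear_combination (-1 : 𝓞 K) * h3
  have hMc : (M : ℤ) ^ (c * q) = N ^ q := by rw [pow_mul, ← hN]
  have hMZ : (M : ℤ) ≤ N := by
    rw [hN]
    exact le_self_pow₀ (by exact_mod_cast hM0) (by omega)
  have hN1 : 1 ≤ N := le_trans (by exact_mod_cast hM0) hMZ
  have hα0 : α ≠ 0 := by
    rintro rfl
    rw [Algebra.norm_zero, hMc] at hn
    have : N ^ q ≠ 0 := by positivity
    exact this hn.symm
  have hβ : β = δ ^ q := by
    apply mul_left_cancel₀ hα0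
    rw [hp, ← hgq, ← mul_pow, h7, hMc]
    push_cast
    rfl
  -- the trace
  have hV := (R_id g δ t N h6 h7 k).1
  rw [← hk, hgq, ← hβ, hs] at hV
  have hVZ : (x : ℤ) = (-1) ^ k * t * R t N k := by
    have : ((x : ℤ) : 𝓞 K) = (((-1) ^ k * t * R t N k : ℤ) : 𝓞 K) := by
      push_cast
      exact hV
    exact_mod_cast this
  have hxpos : (0 : ℤ) < x := by exact_mod_cast hx
  have ht0 : t ≠ 0 := by
    rintro rfl
    rw [mul_zero, zero_mul] at hVZ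
    omega
  have htx : t ∣ (x : ℤ) := ⟨(-1) ^ k * R t N k, by rw [hVZ]; ring⟩
  have htle : |t| ≤ x := by
    have := Int.le_of_dvd hxpos ((abs_dvd t (x : ℤ)).2 htx)
    exact this
  have hsq : t ^ 2 ≤ (x : ℤ) ^ 2 := by
    rw [← sq_abs]
    exact pow_le_pow_left₀ (abs_nonneg t) htle 2
  have hkm : (k : ℤ) ^ 2 ≤ (m : ℤ) ^ 2 := pow_le_pow_left₀ (Int.natCast_nonneg k) (by exact_mod_cast (by omega : k ≤ m)) 2
  have hMM : (x : ℤ) ^ 2 * (m : ℤ) ^ 2 < M := by exact_mod_cast hM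
  have hbd : t ^ 2 * (k : ℤ) ^ 2 ≤ 2 * N := by
    have h8 : t ^ 2 * (k : ℤ) ^ 2 ≤ (x : ℤ) ^ 2 * (m : ℤ) ^ 2 := mul_le_mul hsq hkm (sq_nonneg _) (sq_nonneg _)
    linarith
  obtain ⟨b1, -⟩ := R_bd t N hN1 k hbd
  have hNk : N ≤ N ^ k := le_self_pow₀ hN1 (by omega)
  have hR : 0 < R t N k := by linarith
  have habs : (x : ℤ) = |t| * R t N k := by
    have h9 : |(x : ℤ)| = |(-1) ^ k * t * R t N k| := by rw [← hVZ]
    rw [abs_of_pos hxpos, abs_mul, abs_mul, abs_pow, abs_neg, abs_one, one_pow, one_mul, abs_of_pos hR] at h9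
    exact h9
  have ht1 : 1 ≤ |t| := Int.one_le_abs ht0
  have h10 : R t N k ≤ (x : ℤ) := by
    rw [habs]
    nlinarith
  have hm1 : (1 : ℤ) ≤ (m : ℤ) ^ 2 := by
    have : 1 ≤ m := by omega
    have h11 : (1 : ℤ) ≤ m := by exact_mod_cast this
    nlinarith
  have hx2 : (x : ℤ) ≤ (x : ℤ) ^ 2 := by nlinarith
  nlinarith

/-- a class of the exact odd order `m` in the imaginary quadratic fields containing `√(x ^ 2 - 4 M ^ m)` -/
theorem order_exact (h2 : Module.finrank ℚ K = 2) {x M m : ℕ} (hx : 1 ≤ x) (hm : Odd m) (hM : x ^ 2 * m ^ 2 < M)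
    (hcop : Nat.Coprime x M) (h3 : ¬ (3 : ℤ) ∣ (x : ℤ) ^ 2 - 4 * (M : ℤ) ^ m) {y : K}
    (hy : y ^ 2 = (((x : ℤ) ^ 2 - 4 * (M : ℤ) ^ m : ℤ) : K)) :
    ∃ I : nonZeroDivisors (Ideal (𝓞 K)), Ideal.absNorm (I : Ideal (𝓞 K)) = M ∧ orderOf (ClassGroup.mk0 I) = m := by
  have hm1 : 1 ≤ m := hm.pos
  have hMx : x ^ 2 < M := by
    refine lt_of_le_of_lt ?_ hM
    exact Nat.le_mul_of_pos_right _ (by positivity)
  have hM1 : 1 ≤ M := by omega
  have hMm : M ≤ M ^ m := Nat.le_self_pow (by omega) M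
  have hneg : (x : ℤ) ^ 2 - 4 * (M : ℤ) ^ m < 0 := by
    have h4 : (x : ℤ) ^ 2 < M := by exact_mod_cast hMx
    have h5 : (M : ℤ) ≤ (M : ℤ) ^ m := by exact_mod_cast hMm
    have h6 : (0 : ℤ) < M := by exact_mod_cast hM1
    linarith
  obtain ⟨α, β, hs, hp, hn, f, hf⟩ := exists_ab (N := (M : ℤ) ^ m) h2 hneg hy
  have hd : discr K < 0 := by
    have : 0 ≤ f ^ 2 := sq_nonneg f
    by_contra hcon
    push Not at hcon
    have := mul_nonneg this hcon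
    omega
  have hd3 : discr K ≠ -3 := by
    intro h
    apply h3
    rw [hf, h]
    exact ⟨-f ^ 2, by ring⟩
  have hs' : α + β = (x : 𝓞 K) := by rw [hs]; push_cast; rfl
  -- the ideal
  have hc : IsCoprime α β := by
    have hcop' : IsCoprime (x : ℤ) (M : ℤ) := Nat.isCoprime_iff_coprime.2 hcop
    obtain ⟨u, v, huv⟩ := hcop'.pow_right (n := m)
    refine ⟨(u : 𝓞 K) + v * β, u, ?_⟩
    have h1 : ((u * x + v * (M : ℤ) ^ m : ℤ) : 𝓞 K) = 1 := by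
      rw [huv]
      norm_num
    push_cast at h1 hs hp
    rw [← hs, ← hp] at h1
    linear_combination h1
  obtain ⟨I, hI⟩ := ideal_root (γ := (M : 𝓞 K)) (m := m) hc (by rw [hp]; push_cast; rfl)
  have hα0 : α ≠ 0 := by
    rintro rfl
    rw [Algebra.norm_zero] at hn
    have : (M : ℤ) ^ m ≠ 0 := by positivity
    exact this hn.symm
  have hI0 : I ≠ 0 := by
    rintro rfl
    rw [zero_pow (by omega), Ideal.zero_eq_bot, Ideal.span_singleton_eq_bot] at hI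
    exact hα0 hI
  have hnI : Ideal.absNorm I = M := by
    have h1 : Ideal.absNorm (Ideal.span {α}) = M ^ m := by
      rw [Ideal.absNorm_span_singleton, hn]
      exact_mod_cast Int.natAbs_natCast (M ^ m)
    rw [hI, map_pow] at h1
    exact Nat.pow_left_injective (by omega) h1
  refine ⟨⟨I, mem_nonZeroDivisors_iff_ne_zero.2 hI0⟩, hnI, ?_⟩
  have hpow : ClassGroup.mk0 (⟨I, mem_nonZeroDivisors_iff_ne_zero.2 hI0⟩ : nonZeroDivisors (Ideal (𝓞 K))) ^ m = 1 := by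
    rw [← map_pow, ClassGroup.mk0_eq_one_iff]
    change (I ^ m).IsPrincipal
    rw [← hI]
    exact ⟨α, rfl⟩
  obtain ⟨k, hk1⟩ : ∃ k, k = orderOf (ClassGroup.mk0 (⟨I, mem_nonZeroDivisors_iff_ne_zero.2 hI0⟩ :
    nonZeroDivisors (Ideal (𝓞 K)))) := ⟨_, rfl⟩
  have hdvd : k ∣ m := by
    rw [hk1]
    exact orderOf_dvd_of_pow_eq_one hpow
  rw [← hk1]
  by_contra hne
  obtain ⟨j, hj⟩ := hdvd
  have hj1 : j ≠ 1 := by
    rintro rfl
    exact hne (by rw [hj, mul_one])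
  obtain ⟨q, hq, hqj⟩ := Nat.exists_prime_and_dvd hj1
  obtain ⟨i, hi⟩ := hqj
  obtain ⟨c, hcdef⟩ : ∃ c, c = k * i := ⟨_, rfl⟩
  have hmc : m = c * q := by rw [hj, hi, hcdef]; ring
  have hc1 : 1 ≤ c := by
    rcases Nat.eq_zero_or_pos c with h | h
    · rw [h, zero_mul] at hmc
      omega
    · exact h
  have hqm : q ≤ m := by
    rw [hmc]
    exact Nat.le_mul_of_pos_left q hc1
  have hqodd : Odd q := by
    rw [hmc] at hm
    exact (Nat.odd_mul.1 hm).2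
  have hq3 : 3 ≤ q := by
    have := hq.two_le
    rcases hqodd with ⟨w, hw⟩
    omega
  have hk2 : ClassGroup.mk0 (⟨I, mem_nonZeroDivisors_iff_ne_zero.2 hI0⟩ : nonZeroDivisors (Ideal (𝓞 K))) ^ c = 1 := by
    rw [hcdef, pow_mul, hk1, pow_orderOf_eq_one, one_pow]
  rw [← map_pow, ClassGroup.mk0_eq_one_iff] at hk2
  obtain ⟨γ, hγ⟩ := hk2
  change I ^ c = Ideal.span {γ} at hγ
  have hαb : Ideal.span {γ ^ q} = Ideal.span {α} := by
    rw [hI, hmc, pow_mul, hγ, Ideal.span_singleton_pow]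
  rw [Ideal.span_singleton_eq_span_singleton] at hαb
  obtain ⟨ε, hε⟩ := hαb
  exact no_root h2 hd hd3 (m := m) hx hc1 hqodd hq3 hqm hM hs' (by rw [hp, hmc]) (by rw [hn, hmc]) γ ε hε

end Pool.Agent.X220.IZ
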